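import Pool.Agent.Helper970.V7.Defs

attribute [local instance] VN831.bcFunctor_additive VN831.viaAdd VN831.viaMod V7N.bcF_additive
  V7N.rmAdd V7N.rmMod

/-!
# Statement layer: `L²`-Betti numbers, elementary definitions

`ℓ²(G)` is the space of square summable functions, `N(G)` the ring of bounded operators on `ℓ²(G)`
which commute with the right translations.
-/

set_option autoImplicit false

open scoped ENNReal

namespace L2B

/-! ### The space `ℓ²(G)` -/

theorem sq_add_le (a b : ℂ) : ‖a + b‖ ^ 2 ≤ 2 * ‖a‖ ^ 2 + 2 * ‖b‖ ^ 2 := by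
  have h := norm_add_le a b
  nlinarith [norm_nonneg a, norm_nonneg b, norm_nonneg (a + b), sq_nonneg (‖a‖ - ‖b‖)]

theorem ell2_add {G : Type} {f g : G → ℂ} (hf : Summable fun x => ‖f x‖ ^ 2)
    (hg : Summable fun x => ‖g x‖ ^ 2) : Summable fun x => ‖(f + g) x‖ ^ 2 :=
  Summable.of_nonneg_of_le (fun _ => by positivity) (fun x => sq_add_le (f x) (g x))
    ((hf.mul_left 2).add (hg.mul_left 2))

theorem ell2_zero {G : Type} : Summable fun x : G => ‖(0 : G → ℂ) x‖ ^ 2 := by
  simp

theorem ell2_smul {G : Type} (c : ℂ) {f : G → ℂ} (hf : Summable fun x => ‖f x‖ ^ 2) :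
    Summable fun x => ‖(c • f) x‖ ^ 2 := by
  have h : (fun x => ‖(c • f) x‖ ^ 2) = fun x => ‖c‖ ^ 2 * ‖f x‖ ^ 2 := by
    funext x
    rw [Pi.smul_apply, norm_smul, mul_pow]
  rw [h]
  exact hf.mul_left _

/-- The square summable functions on `G`. -/
def ell2 (G : Type) : Submodule ℂ (G → ℂ) where
  carrier := {f | Summable fun x => ‖f x‖ ^ 2}
  add_mem' := ell2_add
  zero_mem' := ell2_zero
  smul_mem' c _ := ell2_smul c

/-- The space `ℓ²(G)`. -/
def L2 (G : Type) : Type := ↥(ell2 G)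

/-- The additive group `ℓ²(G)`. -/
@[reducible] noncomputable def l2Add (G : Type) : AddCommGroup (L2 G) :=
  (inferInstance : AddCommGroup ↥(ell2 G))

attribute [local instance] l2Add

/-- The vector space `ℓ²(G)`. -/
@[reducible] noncomputable def l2Mod (G : Type) : Module ℂ (L2 G) :=
  (inferInstance : Module ℂ ↥(ell2 G))

attribute [local instance] l2Mod

/-- The value of `ξ ∈ ℓ²(G)` at `x`. -/
def val {G : Type} (ξ : L2 G) (x : G) : ℂ := ξ.1 x

theorem val_add {G : Type} (ξ η : L2 G) (x : G) : val (ξ + η) x = val ξ x + val η x := rfl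

theorem val_smul {G : Type} (c : ℂ) (ξ : L2 G) (x : G) : val (c • ξ) x = c * val ξ x := rfl

theorem val_sub {G : Type} (ξ η : L2 G) (x : G) : val (ξ - η) x = val ξ x - val η x := rfl

theorem val_zero {G : Type} (x : G) : val (0 : L2 G) x = 0 := rfl

theorem ext_val {G : Type} {ξ η : L2 G} (h : ∀ x, val ξ x = val η x) : ξ = η :=
  Subtype.ext (funext h)

theorem comp_mem {G : Type} (e : G ≃ G) (ξ : L2 G) :
    (fun x => val ξ (e x)) ∈ ell2 G :=
  (e.summable_iff (f := fun h => ‖val ξ h‖ ^ 2)).2 ξ.2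

/-- The function `ξ ∘ e` for `ξ ∈ ℓ²(G)` and a bijection `e` of `G`. -/
def compF {G : Type} (e : G ≃ G) (ξ : L2 G) : L2 G := ⟨fun x => val ξ (e x), comp_mem e ξ⟩

theorem compF_add {G : Type} (e : G ≃ G) (ξ η : L2 G) :
    compF e (ξ + η) = compF e ξ + compF e η := rfl

theorem compF_smul {G : Type} (e : G ≃ G) (c : ℂ) (ξ : L2 G) :
    compF e (c • ξ) = c • compF e ξ := rfl

/-- The operator `ξ ↦ ξ ∘ e` on `ℓ²(G)` for a bijection `e` of `G`. -/
def compE {G : Type} (e : G ≃ G) : Module.End ℂ (L2 G) where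
  toFun := compF e
  map_add' := compF_add e
  map_smul' := compF_smul e

theorem val_compE {G : Type} (e : G ≃ G) (ξ : L2 G) (x : G) : val (compE e ξ) x = val ξ (e x) :=
  rfl

/-- Right translation by `g`: the function `x ↦ ξ(x g)`. -/
def rt {G : Type} [Group G] (g : G) : Module.End ℂ (L2 G) := compE (Equiv.mulRight g)

/-- Left translation by `g`: the function `x ↦ ξ(g⁻¹ x)`. -/
def lt {G : Type} [Group G] (g : G) : Module.End ℂ (L2 G) := compE (Equiv.mulLeft g⁻¹)

open scoped Classical in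
theorem delta_mem {G : Type} (g : G) : (fun x => if x = g then (1 : ℂ) else 0) ∈ ell2 G := by
  show Summable fun x => ‖(if x = g then (1 : ℂ) else 0)‖ ^ 2
  refine summable_of_ne_finset_zero (s := {g}) fun x hx => ?_
  rw [if_neg (by simpa using hx)]
  simp

open scoped Classical in
/-- The point mass at `g`. -/
noncomputable def delta {G : Type} (g : G) : L2 G := ⟨fun x => if x = g then 1 else 0, delta_mem g⟩

/-! ### The group von Neumann algebra -/

/-- The square of the norm of `ξ`. -/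
noncomputable def nsq {G : Type} (ξ : L2 G) : ℝ := ∑' x, ‖val ξ x‖ ^ 2

/-- The linear operator `T` on `ℓ²(G)` is bounded. -/
def IsBdd {G : Type} (T : Module.End ℂ (L2 G)) : Prop := ∃ C : ℝ, ∀ ξ, nsq (T ξ) ≤ C * nsq ξ

/-- The operator `T` on `ℓ²(G)` is bounded and commutes with the right translations. -/
def InN {G : Type} [Group G] (T : Module.End ℂ (L2 G)) : Prop :=
  IsBdd T ∧ ∀ g : G, T * rt g = rt g * T

theorem nsq_nonneg {G : Type} (ξ : L2 G) : 0 ≤ nsq ξ := tsum_nonneg fun _ => by positivity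

theorem nsq_add_le {G : Type} (ξ η : L2 G) : nsq (ξ + η) ≤ 2 * nsq ξ + 2 * nsq η := by
  have h1 : Summable fun x => ‖val ξ x‖ ^ 2 := ξ.2
  have h2 : Summable fun x => ‖val η x‖ ^ 2 := η.2
  have h3 : Summable fun x => ‖val (ξ + η) x‖ ^ 2 := (ξ + η).2
  unfold nsq
  rw [← tsum_mul_left, ← tsum_mul_left, ← (h1.mul_left 2).tsum_add (h2.mul_left 2)]
  exact h3.tsum_le_tsum (fun x => sq_add_le _ _) ((h1.mul_left 2).add (h2.mul_left 2))

theorem nsq_neg {G : Type} (ξ : L2 G) : nsq (-ξ) = nsq ξ := by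
  unfold nsq
  refine tsum_congr fun x => ?_
  have : val (-ξ) x = -val ξ x := rfl
  rw [this, norm_neg]

theorem inN_mul {G : Type} [Group G] {S T : Module.End ℂ (L2 G)} (hS : InN S) (hT : InN T) :
    InN (S * T) := by
  obtain ⟨⟨C, hC⟩, hS2⟩ := hS
  obtain ⟨⟨C', hC'⟩, hT2⟩ := hT
  refine ⟨⟨|C| * |C'|, fun ξ => ?_⟩, fun g => ?_⟩
  · have h1 : nsq (S (T ξ)) ≤ C * nsq (T ξ) := hC (T ξ)
    have h2 : nsq (T ξ) ≤ C' * nsq ξ := hC' ξ
    calc nsq ((S * T) ξ) = nsq (S (T ξ)) := rfl
      _ ≤ |C| * nsq (T ξ) := h1.trans (mul_le_mul_of_nonneg_right (le_abs_self C) (nsq_nonneg _))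
      _ ≤ |C| * (|C'| * nsq ξ) := mul_le_mul_of_nonneg_left
          (h2.trans (mul_le_mul_of_nonneg_right (le_abs_self C') (nsq_nonneg _))) (abs_nonneg C)
      _ = |C| * |C'| * nsq ξ := by ring
  · rw [mul_assoc, hT2 g, ← mul_assoc, hS2 g, mul_assoc]

theorem inN_one {G : Type} [Group G] : InN (1 : Module.End ℂ (L2 G)) :=
  ⟨⟨1, fun ξ => by rw [one_mul]; exact le_rfl⟩, fun g => by rw [one_mul, mul_one]⟩

theorem inN_add {G : Type} [Group G] {S T : Module.End ℂ (L2 G)} (hS : InN S) (hT : InN T) :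
    InN (S + T) := by
  obtain ⟨⟨C, hC⟩, hS2⟩ := hS
  obtain ⟨⟨C', hC'⟩, hT2⟩ := hT
  refine ⟨⟨2 * C + 2 * C', fun ξ => ?_⟩, fun g => ?_⟩
  · have h1 := hC ξ
    have h2 := hC' ξ
    calc nsq ((S + T) ξ) ≤ 2 * nsq (S ξ) + 2 * nsq (T ξ) := nsq_add_le _ _
      _ ≤ (2 * C + 2 * C') * nsq ξ := by linarith
  · rw [add_mul, mul_add, hS2 g, hT2 g]

theorem inN_zero {G : Type} [Group G] : InN (0 : Module.End ℂ (L2 G)) := by
  refine ⟨⟨0, fun ξ => ?_⟩, fun g => by rw [zero_mul, mul_zero]⟩
  have h : nsq ((0 : Module.End ℂ (L2 G)) ξ) = 0 := by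
    unfold nsq
    have : ∀ x, ‖val ((0 : Module.End ℂ (L2 G)) ξ) x‖ ^ 2 = 0 := fun x => by
      show ‖(0 : ℂ)‖ ^ 2 = 0
      simp
    simp only [this, tsum_zero]
  rw [h, zero_mul]

theorem inN_neg {G : Type} [Group G] {T : Module.End ℂ (L2 G)} (hT : InN T) : InN (-T) := by
  obtain ⟨⟨C, hC⟩, hT2⟩ := hT
  refine ⟨⟨C, fun ξ => ?_⟩, fun g => by rw [neg_mul, mul_neg, hT2 g]⟩
  have : (-T) ξ = -(T ξ) := rfl
  rw [this, nsq_neg]
  exact hC ξ

/-- The group von Neumann algebra `N(G)` as a ring of operators on `ℓ²(G)`. -/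
def vN (G : Type) [Group G] : Subring (Module.End ℂ (L2 G)) where
  carrier := {T | InN T}
  mul_mem' := inN_mul
  one_mem' := inN_one
  add_mem' := inN_add
  zero_mem' := inN_zero
  neg_mem' := inN_neg

/-- The group von Neumann algebra `N(G)`: the ring of all bounded operators on `ℓ²(G)` commuting
with the right translations. -/
def N (G : Type) [Group G] : Type := ↥(vN G)

/-- The ring structure of `N(G)`. -/
@[reducible] noncomputable def instRingN (G : Type) [Group G] : Ring (N G) :=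
  (inferInstance : Ring ↥(vN G))

attribute [local instance] instRingN

theorem inN_lt {G : Type} [Group G] (g : G) : InN (lt g) := by
  refine ⟨⟨1, fun ξ => ?_⟩, fun h => ?_⟩
  · rw [one_mul]
    refine le_of_eq ?_
    exact (Equiv.mulLeft g⁻¹).tsum_eq (fun x => ‖val ξ x‖ ^ 2)
  · refine LinearMap.ext fun ξ => ext_val fun x => ?_
    show val ξ (g⁻¹ * x * h) = val ξ (g⁻¹ * (x * h))
    rw [mul_assoc]

theorem lt_one {G : Type} [Group G] : lt (1 : G) = 1 := by
  refine LinearMap.ext fun ξ => ext_val fun x => ?_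
  show val ξ ((1 : G)⁻¹ * x) = val ξ x
  rw [inv_one, one_mul]

theorem lt_mul {G : Type} [Group G] (g h : G) : lt (g * h) = lt g * lt h := by
  refine LinearMap.ext fun ξ => ext_val fun x => ?_
  show val ξ ((g * h)⁻¹ * x) = val ξ (h⁻¹ * (g⁻¹ * x))
  rw [mul_inv_rev, mul_assoc]

/-- The left translation by `g` as an element of `N(G)`. -/
def lamT {G : Type} [Group G] (g : G) : N G := ⟨lt g, inN_lt g⟩

theorem lamT_one {G : Type} [Group G] : lamT (1 : G) = 1 := Subtype.ext lt_one

theorem lamT_mul {G : Type} [Group G] (g h : G) : lamT (g * h) = lamT g * lamT h :=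
  Subtype.ext (lt_mul g h)

/-- The left translations as elements of `N(G)`. -/
def lam {G : Type} [Group G] : G →* N G where
  toFun := lamT
  map_one' := lamT_one
  map_mul' := lamT_mul

/-- The real part of the trace `⟨T δ_1, δ_1⟩` of `T ∈ N(G)`. -/
noncomputable def tr {G : Type} [Group G] (T : N G) : ℝ := (val (T.1 (delta 1)) 1).re

/-! ### Lück's extended dimension and `L²`-Betti numbers -/

/-- The left module `R^k e` of the row vectors `v` with `v e = v`, for an idempotent matrix `e`,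
embeds into `M`: there is a linear map `R^k → M` which is injective on `R^k e`. (As `R^k e` is a
direct summand of `R^k`, linear maps `R^k e → M` extend to `R^k`.) -/
def Embeds {R : Type} [Ring R] {k : ℕ} (e : Matrix (Fin k) (Fin k) R) (M : Type) [AddCommGroup M]
    [Module R M] : Prop :=
  ∃ f : (Fin k → R) →ₗ[R] M, ∀ v, Matrix.vecMul v e = v → f v = 0 → v = 0

/-- Lück's extended dimension of a left module `M` over a ring `R` with trace `τ`: the supremum of
the traces of the idempotent matrices `e` such that the (finitely generated projective) left module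
`R^k e` embeds into `M`. -/
noncomputable def luckDim {R : Type} [Ring R] (τ : R → ℝ) (M : Type) [AddCommGroup M]
    [Module R M] : ℝ≥0∞ :=
  ⨆ (k : ℕ) (e : Matrix (Fin k) (Fin k) R) (_ : e * e = e) (_ : Embeds e M),
    ENNReal.ofReal (∑ i, τ (e i i))

open CategoryTheory TensorProduct

/-- The left `R`-module `R ⊗_{ℤ[G]} P`, for a homomorphism `c` from the group `G` to the
multiplicative monoid of the ring `R`. -/
def BC {G R : Type} [Group G] [Ring R] (c : G →* R) (P : Type) [AddCommGroup P]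
    [Module (MonoidAlgebra ℤ G) P] : Type :=
  (R ⊗[ℤ] P) ⧸ V7N.bcR c P

/-- The additive group `R ⊗_{ℤ[G]} P`. -/
@[reducible] noncomputable def instAddBC {G R : Type} [Group G] [Ring R] (c : G →* R) (P : Type)
    [AddCommGroup P] [Module (MonoidAlgebra ℤ G) P] : AddCommGroup (BC c P) :=
  (inferInstance : AddCommGroup ((R ⊗[ℤ] P) ⧸ V7N.bcR c P))

attribute [local instance] instAddBC

/-- The left module structure of `R ⊗_{ℤ[G]} P`. -/
@[reducible] noncomputable def instModBC {G R : Type} [Group G] [Ring R] (c : G →* R) (P : Type)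
    [AddCommGroup P] [Module (MonoidAlgebra ℤ G) P] : Module R (BC c P) :=
  (inferInstance : Module R ((R ⊗[ℤ] P) ⧸ V7N.bcR c P))

attribute [local instance] instModBC

/-- The homomorphism `R ⊗_{ℤ[G]} P → R ⊗_{ℤ[G]} Q` induced by `f : P → Q`. -/
noncomputable def bcMap {G R : Type} [Group G] [Ring R] (c : G →* R) {P Q : Type} [AddCommGroup P]
    [Module (MonoidAlgebra ℤ G) P] [AddCommGroup Q] [Module (MonoidAlgebra ℤ G) Q]
    (f : P →ₗ[MonoidAlgebra ℤ G] Q) : BC c P →ₗ[R] BC c Q := V7N.bcM c f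

/-- `bcMap` as a morphism in the category of left `R`-modules. -/
noncomputable def bcHom {G R : Type} [Group G] [Ring R] (c : G →* R)
    {P Q : ModuleCat.{0} (MonoidAlgebra ℤ G)} (f : P ⟶ Q) :
    ModuleCat.of R (BC c P) ⟶ ModuleCat.of R (BC c Q) := ModuleCat.ofHom (bcMap c f.hom)

theorem bcHom_id {G R : Type} [Group G] [Ring R] (c : G →* R)
    (P : ModuleCat.{0} (MonoidAlgebra ℤ G)) : bcHom c (𝟙 P) = 𝟙 _ := (V7N.bcF c).map_id P

theorem bcHom_comp {G R : Type} [Group G] [Ring R] (c : G →* R)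
    {P Q T : ModuleCat.{0} (MonoidAlgebra ℤ G)} (f : P ⟶ Q) (g : Q ⟶ T) :
    bcHom c (f ≫ g) = bcHom c f ≫ bcHom c g := (V7N.bcF c).map_comp f g

/-- The functor `R ⊗_{ℤ[G]} -` from left `ℤ[G]`-modules to left `R`-modules. -/
noncomputable def bcF {G R : Type} [Group G] [Ring R] (c : G →* R) :
    ModuleCat.{0} (MonoidAlgebra ℤ G) ⥤ ModuleCat.{0} R where
  obj P := ModuleCat.of R (BC c P)
  map f := bcHom c f
  map_id P := bcHom_id c P
  map_comp f g := bcHom_comp c f g

theorem bcF_eq {G R : Type} [Group G] [Ring R] (c : G →* R) : bcF c = V7N.bcF c := rfl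

theorem bcF_additive {G R : Type} [Group G] [Ring R] (c : G →* R) : (bcF c).Additive :=
  V7N.bcF_additive c

attribute [local instance] bcF_additive

/-- The group homology `H_n(G; N(G)) = Tor_n^{ℤ[G]}(N(G), ℤ)`: the value on the trivial module of
the left derived functor of `N(G) ⊗_{ℤ[G]} -`. -/
noncomputable def homN (G : Type) [Group G] (n : ℕ) : ModuleCat.{0} (N G) :=
  ((bcF (lam : G →* N G)).leftDerived n).obj (V7N.trivG G)

theorem homN_eq (G : Type) [Group G] (n : ℕ) :
    homN G n = ((V7N.bcF (lam : G →* N G)).leftDerived n).obj (V7N.trivG G) := rfl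

/-- The `n`-th `L²`-Betti number of the group `G`. -/
noncomputable def l2Betti (G : Type) [Group G] (n : ℕ) : ℝ≥0∞ :=
  luckDim (tr : N G → ℝ) (homN G n)

/-! ### The Atiyah Conjecture -/

/-- `ξ a` for `ξ ∈ ℓ²(G)` and `a ∈ ℤ[G]`, where `(ξ g)(x) = ξ(x g⁻¹)`. -/
noncomputable def rmul {G : Type} [Group G] (a : MonoidAlgebra ℤ G) (ξ : L2 G) : L2 G :=
  a.coeff.sum fun g c => (c : ℂ) • rt g⁻¹ ξ

/-- `v` is in the kernel of `v ↦ v A`, `ℓ²(G)^m → ℓ²(G)^n`. -/
def InKer {G : Type} [Group G] {m n : ℕ} (A : Matrix (Fin m) (Fin n) (MonoidAlgebra ℤ G))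
    (v : Fin m → L2 G) : Prop :=
  ∀ j, ∑ i, rmul (A i j) (v i) = 0

/-- The scalar product of `ℓ²(G)^m`. -/
noncomputable def ip {G : Type} {m : ℕ} (v w : Fin m → L2 G) : ℂ :=
  ∑ i, ∑' x, (starRingEnd ℂ) (val (v i) x) * val (w i) x

/-- `p` is the orthogonal projection of `v` to the kernel of `v ↦ v A`. -/
def IsProj {G : Type} [Group G] {m n : ℕ} (A : Matrix (Fin m) (Fin n) (MonoidAlgebra ℤ G))
    (v p : Fin m → L2 G) : Prop :=
  InKer A p ∧ ∀ w, InKer A w → ip w (v - p) = 0

/-- The Atiyah Conjecture: for every `m × n`-matrix `A` over `ℤ[G]` the von Neumann dimension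
`∑ i, ⟨P δ_i, δ_i⟩` of the kernel of `v ↦ v A`, `ℓ²(G)^m → ℓ²(G)^n`, is an integer, where `P` is the
orthogonal projection onto the kernel and `δ_i` is `δ_1` in the `i`-th coordinate. -/
def Atiyah (G : Type) [Group G] : Prop :=
  ∀ (m n : ℕ) (A : Matrix (Fin m) (Fin n) (MonoidAlgebra ℤ G)) (P : Fin m → Fin m → L2 G),
    (∀ i, IsProj A (Pi.single i (delta 1)) (P i)) → ∃ k : ℤ, ∑ i, val (P i i) 1 = k

open CategoryTheory

/-- The module `M` is finitely generated and free. -/
def FGFree {R : Type} [Ring R] (M : ModuleCat.{0} R) : Prop := Module.Free R M ∧ Module.Finite R M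

/-- `G` is of type FL: the trivial module has a resolution of finite length by finitely generated
free `ℤ[G]`-modules. -/
def TypeFL (G : Type) [Group G] : Prop :=
  ∃ P : ProjectiveResolution (V7N.trivG G), ∃ m : ℕ, ∀ n,
    FGFree (P.complex.X n) ∧ (m ≤ n → Subsingleton (P.complex.X n))

end L2B
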