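import Pool.Agent.Helper831.VN.Bridge
import Pool.Agent.Helper831.VN.St
import Pool.Agent.Helper970.V7.Gen
import Pool.Agent.RK.Transport

attribute [local instance] VN831.bcFunctor_additive VN831.viaAdd VN831.viaMod
  Pool.Agent.Helper655.VN.kerM_hop V7N.bcF_additive V7N.rmAdd V7N.rmMod L2B.l2Add L2B.l2Mod
  L2B.instRingN L2B.instAddBC L2B.instModBC L2B.bcF_additive

set_option autoImplicit false

open scoped ENNReal

namespace L2B

open Pool.Agent.RK TN970 V6 VN831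

theorem nz_map {R S : Type} [Ring R] [Ring S] (σ : R ≃+* S) (s : R) (hs : Nz s) : Nz (σ s) := by
  intro x hx
  have h1 : σ.symm x * s = 0 := by
    have h2 := congrArg σ.symm hx
    rw [map_mul, σ.symm_apply_apply, map_zero] at h2
    exact h2
  have h3 := hs _ h1
  have h4 := congrArg σ h3
  rwa [σ.apply_symm_apply, map_zero] at h4

/-- Transport of the set-up along a ring isomorphism. -/
theorem setup_transport {Γ : Type} [Group Γ] {R₀ R' R U D : Type} [Ring R₀] [StarRing R₀]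
    [Ring R'] [Ring R] [Ring U] [DivisionRing D] (σ : R₀ ≃+* R') {τ₀ : R₀ →+ ℝ}
    {j : R₀ →+* R} {ι : R →+* U} {κ : D →+* U} {u : Γ →* Dˣ} {lam : Γ →* R} {N : Subgroup Γ}
    (S : Setup τ₀ j ι κ u lam N) :
    ∃ _ : StarRing R', Setup (τ₀.comp (σ.symm : R' →+ R₀)) (j.comp (σ.symm : R' →+* R₀)) ι κ u
      lam N := by
  obtain ⟨i, hi⟩ := Pool.Agent.RK.Transport.vn_transport σ S.vn
  refine ⟨i, ?_⟩
  exact
    { vn := hi
      jinj := S.jinj.comp σ.symm.injective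
      jnz := fun s hs => S.jnz _ (nz_map σ.symm s hs)
      loc := S.loc
      hu := S.hu
      hN := fun g hg => by
        obtain ⟨r, hr⟩ := S.hN g hg
        refine ⟨σ r, ?_⟩
        show j (σ.symm (σ r)) = lam g
        rw [σ.symm_apply_apply, hr]
      hK := fun d hd => by
        obtain ⟨s, x, hs, hx⟩ := S.hK d hd
        refine ⟨σ s, σ x, nz_map σ s hs, ?_⟩
        show ι (j (σ.symm (σ s))) * κ d = ι (j (σ.symm (σ x)))
        rw [σ.symm_apply_apply, σ.symm_apply_apply, hx]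
      indep := fun s hs x hx g hg => by
        have h1 := S.indep s hs (fun g => σ.symm (x g)) hx g hg
        have h2 := congrArg σ h1
        rwa [σ.apply_symm_apply, map_zero] at h2 }

theorem luckDim_congr {R : Type} [Ring R] (τ : R → ℝ) {M M' : Type} [AddCommGroup M] [Module R M]
    [AddCommGroup M'] [Module R M'] (f : M ≃ₗ[R] M') : luckDim τ M = luckDim τ M' := by
  unfold luckDim
  refine iSup_congr fun k => iSup_congr fun e => iSup_congr fun he => ?_
  refine iSup_congr_Prop ⟨?_, ?_⟩ (fun _ => rfl)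
  · rintro ⟨g, hg⟩
    exact ⟨f.toLinearMap ∘ₗ g, fun v hv h => hg v hv (f.map_eq_zero_iff.1 h)⟩
  · rintro ⟨g, hg⟩
    exact ⟨f.symm.toLinearMap ∘ₗ g, fun v hv h => hg v hv (f.symm.map_eq_zero_iff.1 h)⟩

theorem luckDim_le {R : Type} [Ring R] (τ : R → ℝ) {M : Type} [AddCommGroup M] [Module R M] (r : ℕ)
    (h : ∀ (k : ℕ) (e : Matrix (Fin k) (Fin k) R), e * e = e →
      ∀ f : rowMod e →ₗ[R] M, Function.Injective f → ∑ i, τ (e i i) ≤ r) :
    luckDim τ M ≤ r := by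
  unfold luckDim
  refine iSup_le fun k => iSup_le fun e => iSup_le fun he => iSup_le ?_
  rintro ⟨f, hf⟩
  have hf' : Function.Injective (f ∘ₗ (rowMod e).subtype) := by
    rw [injective_iff_map_eq_zero]
    rintro ⟨v, hv⟩ hv0
    exact Subtype.ext (hf v hv hv0)
  calc ENNReal.ofReal (∑ i, τ (e i i)) ≤ ENNReal.ofReal (r : ℝ) :=
        ENNReal.ofReal_le_ofReal (h k e he _ hf')
    _ = r := ENNReal.ofReal_natCast r

theorem le_luckDim {R : Type} [Ring R] (τ : R → ℝ) (h1 : τ 1 = 1) {M : Type} [AddCommGroup M]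
    [Module R M] (r : ℕ) (f : (Fin r → R) →ₗ[R] M) (hf : Function.Injective f) :
    (r : ℝ≥0∞) ≤ luckDim τ M := by
  classical
  unfold luckDim
  have h2 : Embeds (1 : Matrix (Fin r) (Fin r) R) M :=
    ⟨f, fun v _ h => (injective_iff_map_eq_zero f).1 hf v h⟩
  have h3 : (r : ℝ≥0∞) = ENNReal.ofReal (∑ i, τ ((1 : Matrix (Fin r) (Fin r) R) i i)) := by
    have h4 : ∀ i : Fin r, τ ((1 : Matrix (Fin r) (Fin r) R) i i) = 1 := by
      intro i
      rw [Matrix.one_apply_eq, h1]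
    rw [Finset.sum_congr rfl (fun i _ => h4 i)]
    simp
  rw [h3]
  exact le_iSup_of_le r (le_iSup_of_le 1 (le_iSup_of_le (one_mul 1) (le_iSup_of_le h2 le_rfl)))

section

variable {Γ : Type} [Group Γ] {R' R U D : Type} [Ring R'] [StarRing R'] [Ring R] [Ring U]
    [DivisionRing D] {τ' : R' →+ ℝ} {j : R' →+* R} {ι : R →+* U} {κ : D →+* U} {u : Γ →* Dˣ}
    {lam : Γ →* R} {N : Subgroup Γ}

theorem luckDim_HR (S : Setup τ' j ι κ u lam N) (κ0 : MonoidAlgebra ℤ Γ →+* R)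
    (hκ0 : ∀ a, κ (ev u a) = ι (κ0 a)) {a b d : ℕ}
    (A : Matrix (Fin a) (Fin b) (MonoidAlgebra ℤ Γ)) (B : Matrix (Fin b) (Fin d) (MonoidAlgebra ℤ Γ))
    (hfin : Module.Finite (Dc u N) (HN u N (A.map (ev u)) (B.map (ev u)))) :
    luckDim (τ' : R' → ℝ) (HR j lam (A.map κ0) (B.map κ0)) =
      (Module.finrank (Dc u N) (HN u N (A.map (ev u)) (B.map (ev u))) : ℝ≥0∞) := by
  apply le_antisymm
  · exact luckDim_le _ _ fun k e he f hf => upper S κ0 hκ0 A B e he f hf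
  · obtain ⟨f, hf⟩ := lower S κ0 hκ0 A B
      (fun i => Module.finBasis (Dc u N) (HN u N (A.map (ev u)) (B.map (ev u))) i)
      (Module.finBasis (Dc u N) (HN u N (A.map (ev u)) (B.map (ev u)))).linearIndependent
    exact le_luckDim _ S.vn.one _ f hf

theorem hex_of_luckDim (S : Setup τ' j ι κ u lam N) (κ0 : MonoidAlgebra ℤ Γ →+* R)
    (hκ0 : ∀ a, κ (ev u a) = ι (κ0 a)) {a b d : ℕ}
    (A : Matrix (Fin a) (Fin b) (MonoidAlgebra ℤ Γ)) (B : Matrix (Fin b) (Fin d) (MonoidAlgebra ℤ Γ))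
    (h0 : luckDim (τ' : R' → ℝ) (HR j lam (A.map κ0) (B.map κ0)) = 0) :
    ∀ v ∈ ZN u N (B.map (ev u)), v ∈ BN u N (A.map (ev u)) := by
  intro v hv
  by_contra hc
  have hne : (Submodule.Quotient.mk ⟨v, hv⟩ : HN u N (A.map (ev u)) (B.map (ev u))) ≠ 0 := by
    intro h
    rw [Submodule.Quotient.mk_eq_zero] at h
    exact hc h
  obtain ⟨f, hf⟩ := lower S κ0 hκ0 A B (r := 1)
    (fun _ => (Submodule.Quotient.mk ⟨v, hv⟩ : HN u N (A.map (ev u)) (B.map (ev u))))
    (LinearIndependent.of_subsingleton (0 : Fin 1) hne)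
  have h1 := le_luckDim _ S.vn.one 1 f hf
  rw [h0] at h1
  simp at h1

end

open Pool.Agent.Helper655.VN in
/-- The final theorem, from a ring isomorphism `σ K : N(K) → N(K)` between the two models of the
group von Neumann algebra. -/
theorem main_of_sig (σ : ∀ (K : Type) [Group K], NG K ≃+* N K)
    (hσl : ∀ (K : Type) [Group K] (g : K), σ K (canL g) = lam g)
    (hσt : ∀ (K : Type) [Group K] (T : NG K), L2B.tr (σ K T) = (Pool.Agent.Helper655.VN.tr T).re)
    {Γ : Type} [Group Γ] [Group.FG Γ] (hF : TypeFL Γ) (hA : VN831.Atiyah Γ) (n : ℕ)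
    (h0 : l2Betti Γ n = 0) :
    ∃ P : Finset (H1R Γ), P.Nonempty ∧ ∀ φ : Γ →* Multiplicative ℤ, Function.Surjective φ →
      ∃ t : ℝ, IsGreatest {t : ℝ | ∃ x ∈ convexHull ℝ (P : Set (H1R Γ)),
          ∃ y ∈ convexHull ℝ (P : Set (H1R Γ)), t = linF φ x - linF φ y} t ∧
        l2Betti φ.ker n = ENNReal.ofReal t := by
  have htr : ∀ (K : Type) [Group K],
      (L2B.tr : N K → ℝ) = ((tau K).comp ((σ K).symm : N K →+ NG K) : N K → ℝ) := by
    intro K _
    funext T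
    have h1 := hσt K ((σ K).symm T)
    rw [(σ K).apply_symm_apply] at h1
    exact h1
  obtain ⟨U, hU, ι, D, hD, κ, u, hι, hu, hev, hL⟩ := exists_D hA
  obtain ⟨Pr, m, hPr⟩ := hF
  obtain ⟨a, b, d, A, B, hAB, h7⟩ :=
    V7N.v7_gen Pr (fun n => (hPr n).1.1) (fun n => (hPr n).1.2) n
  have hex : ∀ v ∈ ZN u ⊤ (B.map (ev u)), v ∈ BN u ⊤ (A.map (ev u)) := by
    obtain ⟨st, S⟩ := setup_transport (σ Γ) (setup_top hι hu)
    have hr : (MonoidHom.id Γ).range = ⊤ := by
      rw [MonoidHom.range_eq_top]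
      exact Function.surjective_id
    obtain ⟨f⟩ := h7 Γ (N Γ) (NG Γ) (MonoidHom.id Γ) Function.injective_id lam canL
      ((RingHom.id (NG Γ)).comp ((σ Γ).symm : N Γ →+* NG Γ))
      (fun k => by
        show (σ Γ).symm (lam k) = canL k
        rw [← hσl Γ k, (σ Γ).symm_apply_apply])
      (by rw [hr]; exact S.indep)
    refine hex_of_luckDim S (V7N.evM canL) hev A B ?_
    rw [← htr, ← luckDim_congr _ f]
    exact h0
  obtain ⟨P, hP, hmain⟩ := part1 u hL A B hAB hex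
  refine ⟨P, hP, fun φ hφ => ?_⟩
  obtain ⟨hfin, hgr⟩ := hmain φ hφ
  refine ⟨_, hgr, ?_⟩
  obtain ⟨st, S⟩ := setup_transport (σ φ.ker) (setup_sub φ.ker hι hu)
  have hr : (φ.ker.subtype).range = φ.ker := Subgroup.range_subtype _
  obtain ⟨f⟩ := h7 φ.ker (N φ.ker) (NG Γ) φ.ker.subtype (Subgroup.subtype_injective _) lam canL
    ((Pool.Agent.Helper277.VN5.jN φ.ker).comp ((σ φ.ker).symm : N φ.ker →+* NG φ.ker))
    (fun k => by
      show Pool.Agent.Helper277.VN5.jN φ.ker ((σ φ.ker).symm (lam k)) = canL (φ.ker.subtype k)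
      rw [← hσl φ.ker k, (σ φ.ker).symm_apply_apply]
      exact Pool.Agent.Helper277.VN5.jN_canL φ.ker k)
    (by rw [hr]; exact S.indep)
  have h1 : l2Betti φ.ker n = luckDim (L2B.tr : N φ.ker → ℝ)
      (HR ((Pool.Agent.Helper277.VN5.jN φ.ker).comp ((σ φ.ker).symm : N φ.ker →+* NG φ.ker)) canL
        (A.map (V7N.evM canL)) (B.map (V7N.evM canL))) := luckDim_congr _ f
  rw [h1, htr, luckDim_HR S (V7N.evM canL) hev A B hfin]
  simp

end L2B
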